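import Mathlib
import Pool.Agent.Q192.JH.Defs
import Pool.Agent.Q192.JH.Fin

namespace Pool.Agent.Results.MP_f85f12_al.JordanHolderFails

open CategoryTheory CategoryTheory.Limits CategoryTheory.Pretriangulated Pool.Agent.Q192.JH

/-- There is a triangulated category `C` with a lax stability condition and a phase `φ` such that
the slice `P φ` does not have the Jordan-Hölder property. -/
theorem result :
    ∃ (C : Type 1) (_ : Category.{1} C) (_ : Preadditive C) (_ : HasZeroObject C)
      (_ : HasShift C ℤ) (_ : ∀ n : ℤ, (shiftFunctor C n).Additive) (_ : Pretriangulated C)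
      (_ : IsTriangulated C) (v : K0Hom C (Fin 1 → ℤ)) (ν : Seminorm ℝ (Fin 1 → ℝ))
      (σ : LaxStability C 1 v ν) (φ : ℝ),
      (∀ X : C, σ.P φ X → ¬ IsZero X → 0 < ‖σ.Z (v.v X)‖) ∧
        ¬ JordanHolder (σ.P φ).FullSubcategory :=
  ⟨CC, inferInstance, inferInstance, inferInstance, inferInstance, inferInstance, inferInstance,
    inferInstance, vK, normSeminorm ℝ (Fin 1 → ℝ), sigma, 1 / 2, massive, not_JH⟩

end Pool.Agent.Results.MP_f85f12_al.JordanHolderFails
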